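import Mathlib
import Pool.Agent.Helper55.JS.Walks

/-!
# Project JS, JS-7: choice of the configuration
-/

set_option autoImplicit false

namespace Pool.Agent.Helper55.JS

open Finset

variable {V : Type} [Fintype V] [DecidableEq V] {G : SimpleGraph V}

namespace P7

/-- the weight of the triple `(w, X1, X2)` -/
noncomputable def wt (G : SimpleGraph V) (α β : ℕ) (t : V × V × V) : ℝ :=
  W G α t.1 t.2.1 * W G β t.2.2 t.1

theorem wt_nonneg (α β : ℕ) (t : V × V × V) : 0 ≤ wt G α β t :=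
  mul_nonneg (W_nonneg _ _ _) (W_nonneg _ _ _)

theorem loop (α β a b : ℕ) (u v : V) :
    ∑ t, wt G α β t * (W G a t.2.1 u * W G b v t.2.2) = W G (b + β + (α + a)) v u := by
  rw [W_add (b + β) (α + a), Fintype.sum_prod_type]
  refine sum_congr rfl fun w _ => ?_
  rw [W_add b β, W_add α a, mul_comm, sum_mul_sum, Fintype.sum_prod_type]
  refine sum_congr rfl fun X1 _ => sum_congr rfl fun X2 _ => ?_
  unfold wt
  ring

theorem loop_one (P : V → V → Prop) [DecidableRel P] (α β a b : ℕ) :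
    ∑ t, wt G α β t * (∑ y, if P t.1 y then W G a t.2.1 y * W G b y t.2.2 else 0) =
      ∑ w, ∑ y, if P w y then W G (α + a) w y * W G (b + β) y w else 0 := by
  rw [Fintype.sum_prod_type]
  refine sum_congr rfl fun w _ => ?_
  simp only [mul_sum]
  rw [sum_comm]
  refine sum_congr rfl fun y _ => ?_
  split_ifs with h
  · rw [W_add b β, W_add α a, sum_mul_sum, Fintype.sum_prod_type]
    refine sum_congr rfl fun X1 _ => sum_congr rfl fun X2 _ => ?_
    unfold wt
    ring
  · simp

theorem loop_two (P : V → V → Prop) [DecidableRel P] (α β a c b : ℕ) :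
    ∑ t, wt G α β t * (∑ u, ∑ v, if P u v then W G a t.2.1 u * W G c u v * W G b v t.2.2 else 0) =
      ∑ u, ∑ v, if P u v then W G c u v * W G (b + β + (α + a)) v u else 0 := by
  simp only [mul_sum]
  rw [sum_comm]
  refine sum_congr rfl fun u _ => ?_
  rw [sum_comm]
  refine sum_congr rfl fun v _ => ?_
  split_ifs with h
  · rw [← loop, mul_sum]
    refine sum_congr rfl fun t _ => ?_
    ring
  · simp

theorem card_two (P : V → V → Prop) [DecidableRel P] {m a b : ℕ} (hab : a ≤ b) (hb : b ≤ m)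
    (x y : V) :
    (((wk G m x y).filter fun p => P (p ⟨a, by omega⟩) (p ⟨b, by omega⟩)).card : ℝ) ≤
      ∑ u, ∑ v, if P u v then W G a x u * W G (b - a) u v * W G (m - b) v y else 0 := by
  have h1 : ((wk G m x y).filter fun p => P (p ⟨a, by omega⟩) (p ⟨b, by omega⟩)) ⊆
      univ.biUnion fun u => (univ.filter fun v => P u v).biUnion fun v =>
        (wk G m x y).filter fun p => p ⟨a, by omega⟩ = u ∧ p ⟨b, by omega⟩ = v := by
    intro p hp
    rw [mem_filter] at hp
    rw [mem_biUnion]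
    refine ⟨p ⟨a, by omega⟩, mem_univ _, ?_⟩
    rw [mem_biUnion]
    refine ⟨p ⟨b, by omega⟩, mem_filter.2 ⟨mem_univ _, hp.2⟩, ?_⟩
    rw [mem_filter]
    exact ⟨hp.1, rfl, rfl⟩
  have h2 := (card_le_card h1).trans card_biUnion_le
  have h3 : (((wk G m x y).filter fun p => P (p ⟨a, by omega⟩) (p ⟨b, by omega⟩)).card : ℝ) ≤
      ∑ u, (((univ.filter fun v => P u v).biUnion fun v =>
        (wk G m x y).filter fun p => p ⟨a, by omega⟩ = u ∧ p ⟨b, by omega⟩ = v).card : ℝ) := by
    exact_mod_cast h2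
  refine h3.trans (sum_le_sum fun u _ => ?_)
  have h4 : (((univ.filter fun v => P u v).biUnion fun v =>
        (wk G m x y).filter fun p => p ⟨a, by omega⟩ = u ∧ p ⟨b, by omega⟩ = v).card : ℝ) ≤
      ∑ v ∈ univ.filter (fun v => P u v),
        (((wk G m x y).filter fun p => p ⟨a, by omega⟩ = u ∧ p ⟨b, by omega⟩ = v).card : ℝ) := by
    exact_mod_cast card_biUnion_le
  refine h4.trans ?_
  rw [sum_filter]
  refine sum_le_sum fun v _ => ?_
  split_ifs with h
  · exact card_wk_two hab hb x y u v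
  · exact le_refl _

theorem card_one (P : V → Prop) [DecidablePred P] {m a : ℕ} (ha : a ≤ m) (x y : V) :
    (((wk G m x y).filter fun p => P (p ⟨a, by omega⟩)).card : ℝ) ≤
      ∑ u, if P u then W G a x u * W G (m - a) u y else 0 := by
  have h1 : ((wk G m x y).filter fun p => P (p ⟨a, by omega⟩)) ⊆
      (univ.filter fun u => P u).biUnion fun u =>
        (wk G m x y).filter fun p => p ⟨a, by omega⟩ = u := by
    intro p hp
    rw [mem_filter] at hp
    rw [mem_biUnion]
    refine ⟨p ⟨a, by omega⟩, mem_filter.2 ⟨mem_univ _, hp.2⟩, ?_⟩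
    rw [mem_filter]
    exact ⟨hp.1, rfl⟩
  have h2 := (card_le_card h1).trans card_biUnion_le
  have h3 : (((wk G m x y).filter fun p => P (p ⟨a, by omega⟩)).card : ℝ) ≤
      ∑ u ∈ univ.filter (fun u => P u),
        (((wk G m x y).filter fun p => p ⟨a, by omega⟩ = u).card : ℝ) := by
    exact_mod_cast h2
  refine h3.trans ?_
  rw [sum_filter]
  refine sum_le_sum fun v _ => ?_
  split_ifs with h
  · exact card_wk_one ha x y v
  · exact le_refl _

/-- the classes of bad walks -/
abbrev Cls (J : ℕ) : Type := (Fin (J + 1) × Fin (J + 1)) ⊕ (Fin (J + 1) ⊕ (Fin (J + 1) ⊕ Unit))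

/-- the predicate defining the classes of bad walks -/
def C (G : SimpleGraph V) {J : ℕ} (j1 k : ℕ) (δ : ℝ) (hj : j1 < J + 1) (t : V × V × V)
    (Q : Fin (J + 1) → V) : Cls J → Prop
  | Sum.inl ab => (ab.1 : ℕ) < ab.2 ∧ Q ab.1 = Q ab.2
  | Sum.inr (Sum.inl b) => Q b = t.1
  | Sum.inr (Sum.inr (Sum.inl a)) => ∃ h : (a : ℕ) + k ≤ J, ¬ Spread G k δ (Q a) (Q ⟨a + k, by omega⟩)
  | Sum.inr (Sum.inr (Sum.inr _)) => ¬ Spread G k δ t.1 (Q ⟨j1, hj⟩)

open Classical in
theorem class_le {j1 j2 k : ℕ} (h1k : j1 < k) (h2k : j2 < k)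
    (hJ : k ≤ j1 + j2) {δ N' : ℝ}
    (hcl : ∀ m, 1 ≤ m → m < 2 * k → ∑ v, W G m v v * W G (2 * k - m) v v ≤ N')
    (hns : ∑ x, ∑ y, (if Spread G k δ x y then 0 else W G k x y ^ 2) ≤ N') (hN0 : 0 ≤ N')
    (i : Cls (j1 + j2)) :
    ∑ t, wt G (k - j1) (k - j2) t *
      (((wk G (j1 + j2) t.2.1 t.2.2).filter fun Q =>
        C G j1 k δ (by omega) t Q i).card : ℝ) ≤ N' := by
  have hns' : ∑ x, ∑ y, (if ¬ Spread G k δ x y then W G k x y * W G k y x else 0) ≤ N' := by
    refine le_trans (le_of_eq ?_) hns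
    refine sum_congr rfl fun x _ => sum_congr rfl fun y _ => ?_
    rw [ite_not, W_symm k y x, sq]
  rcases i with ⟨a, b⟩ | b | a | u
  · by_cases hab : (a : ℕ) < b
    · have h1 : ∀ t : V × V × V, (((wk G (j1 + j2) t.2.1 t.2.2).filter fun Q =>
          C G j1 k δ (by omega) t Q (Sum.inl (a, b))).card : ℝ) ≤
          ∑ u, ∑ v, if u = v then W G a t.2.1 u * W G (b - a) u v * W G (j1 + j2 - b) v t.2.2
            else 0 := by
        intro t
        refine le_trans (le_of_eq ?_) (card_two (G := G) (fun u v => u = v) hab.le (by omega)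
          t.2.1 t.2.2)
        congr 2
        refine filter_congr fun Q _ => ?_
        simp only [C]
        exact and_iff_right hab
      refine (sum_le_sum fun t _ => mul_le_mul_of_nonneg_left (h1 t) (wt_nonneg _ _ t)).trans ?_
      rw [loop_two]
      simp only [sum_ite_eq, mem_univ, if_true]
      have h2 := hcl (b - a) (by omega) (by omega)
      have h3 : j1 + j2 - (b : ℕ) + (k - j2) + (k - j1 + a) = 2 * k - (b - a) := by omega
      rw [h3]
      exact h2
    · have h1 : ∀ t : V × V × V, ((wk G (j1 + j2) t.2.1 t.2.2).filter fun Q =>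
          C G j1 k δ (by omega) t Q (Sum.inl (a, b))) = ∅ := by
        intro t
        rw [filter_eq_empty_iff]
        intro Q _ hQ
        exact hab hQ.1
      simp only [h1, card_empty, Nat.cast_zero, mul_zero, sum_const_zero]
      exact hN0
  · have h1 : ∀ t : V × V × V, (((wk G (j1 + j2) t.2.1 t.2.2).filter fun Q =>
        C G j1 k δ (by omega) t Q (Sum.inr (Sum.inl b))).card : ℝ) ≤
        ∑ y, if t.1 = y then W G b t.2.1 y * W G (j1 + j2 - b) y t.2.2 else 0 := by
      intro t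
      refine le_trans (le_of_eq ?_) (card_one (G := G) (fun y => t.1 = y) (a := b) (by omega)
        t.2.1 t.2.2)
      congr 2
      refine filter_congr fun Q _ => ?_
      simp only [C]
      exact eq_comm
    refine (sum_le_sum fun t _ => mul_le_mul_of_nonneg_left (h1 t) (wt_nonneg _ _ t)).trans ?_
    rw [loop_one (fun w y => w = y)]
    simp only [sum_ite_eq, mem_univ, if_true]
    have h2 := hcl (k - j1 + b) (by omega) (by omega)
    have h3 : j1 + j2 - (b : ℕ) + (k - j2) = 2 * k - (k - j1 + b) := by omega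
    rw [h3]
    exact h2
  · by_cases ha : (a : ℕ) + k ≤ j1 + j2
    · have h1 : ∀ t : V × V × V, (((wk G (j1 + j2) t.2.1 t.2.2).filter fun Q =>
          C G j1 k δ (by omega) t Q (Sum.inr (Sum.inr (Sum.inl a)))).card : ℝ) ≤
          ∑ u, ∑ v, if ¬ Spread G k δ u v then
            W G a t.2.1 u * W G (a + k - a) u v * W G (j1 + j2 - (a + k)) v t.2.2 else 0 := by
        intro t
        refine le_trans (le_of_eq ?_) (card_two (G := G) (fun u v => ¬ Spread G k δ u v)
          (a := a) (b := a + k) (by omega) ha t.2.1 t.2.2)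
        congr 2
        refine filter_congr fun Q _ => ?_
        simp only [C]
        constructor
        · rintro ⟨_, h⟩
          exact h
        · intro h
          exact ⟨ha, h⟩
      refine (sum_le_sum fun t _ => mul_le_mul_of_nonneg_left (h1 t) (wt_nonneg _ _ t)).trans ?_
      rw [loop_two (fun u v => ¬ Spread G k δ u v)]
      have h3 : j1 + j2 - ((a : ℕ) + k) + (k - j2) + (k - j1 + a) = k := by omega
      have h4 : (a : ℕ) + k - a = k := by omega
      rw [h3, h4]
      exact hns'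
    · have h1 : ∀ t : V × V × V, ((wk G (j1 + j2) t.2.1 t.2.2).filter fun Q =>
          C G j1 k δ (by omega) t Q (Sum.inr (Sum.inr (Sum.inl a)))) = ∅ := by
        intro t
        rw [filter_eq_empty_iff]
        rintro Q _ ⟨h, _⟩
        exact ha h
      simp only [h1, card_empty, Nat.cast_zero, mul_zero, sum_const_zero]
      exact hN0
  · have h1 : ∀ t : V × V × V, (((wk G (j1 + j2) t.2.1 t.2.2).filter fun Q =>
        C G j1 k δ (by omega) t Q (Sum.inr (Sum.inr (Sum.inr u)))).card : ℝ) ≤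
        ∑ y, if ¬ Spread G k δ t.1 y then
          W G j1 t.2.1 y * W G (j1 + j2 - j1) y t.2.2 else 0 := by
      intro t
      refine le_trans (le_of_eq ?_) (card_one (G := G) (fun y => ¬ Spread G k δ t.1 y)
        (m := j1 + j2) (a := j1) (by omega) t.2.1 t.2.2)
      congr 2
      refine filter_congr fun Q _ => ?_
      simp only [C]
    refine (sum_le_sum fun t _ => mul_le_mul_of_nonneg_left (h1 t) (wt_nonneg _ _ t)).trans ?_
    rw [loop_one (fun w y => ¬ Spread G k δ w y)]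
    have h3 : j1 + j2 - j1 + (k - j2) = k := by omega
    have h4 : k - j1 + j1 = k := by omega
    rw [h3, h4]
    exact hns'

end P7

open P7

open Classical in
/-- JS-7 -/
theorem exists_config {j1 j2 k : ℕ} (h1k : j1 < k) (h2k : j2 < k)
    (hJ : k ≤ j1 + j2) {δ N' : ℝ} (hN : 0 < ∑ v, W G (2 * k) v v)
    (hcl : ∀ m, 1 ≤ m → m < 2 * k → ∑ v, W G m v v * W G (2 * k - m) v v ≤ N')
    (hns : ∑ x, ∑ y, (if Spread G k δ x y then 0 else W G k x y ^ 2) ≤ N')
    (hN' : 16 * (k : ℝ) ^ 2 * N' ≤ (∑ v, W G (2 * k) v v) / 4) :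
    ∃ (w X1 X2 : V) (Qs : Finset (Fin (j1 + j2 + 1) → V)), 0 < W G (j1 + j2) X1 X2 ∧
      Qs ⊆ wk G (j1 + j2) X1 X2 ∧ 3 / 4 * W G (j1 + j2) X1 X2 ≤ (Qs.card : ℝ) ∧
      ∀ Q ∈ Qs, Function.Injective Q ∧ (∀ i, Q i ≠ w) ∧
        (∀ (a : ℕ) (h : a + k ≤ j1 + j2),
          Spread G k δ (Q ⟨a, by omega⟩) (Q ⟨a + k, by omega⟩)) ∧
        Spread G k δ w (Q ⟨j1, by omega⟩) := by
  have hN0 : 0 ≤ N' := by
    refine le_trans (sum_nonneg fun x _ => sum_nonneg fun y _ => ?_) hns
    split_ifs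
    · exact le_refl _
    · exact sq_nonneg _
  set α := k - j1 with hα
  set β := k - j2 with hβ
  have hjJ : j1 < j1 + j2 + 1 := by omega
  -- total weight
  have htot : ∑ t, wt G α β t * W G (j1 + j2) t.2.1 t.2.2 = ∑ v, W G (2 * k) v v := by
    rw [Fintype.sum_prod_type]
    refine sum_congr rfl fun w _ => ?_
    have e : 2 * k = α + (j1 + j2) + β := by omega
    rw [e, W_add, Fintype.sum_prod_type, sum_comm]
    refine sum_congr rfl fun X2 _ => ?_
    rw [W_add, sum_mul]
    refine sum_congr rfl fun X1 _ => ?_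
    unfold wt
    ring
  -- bad walks
  set bad : V × V × V → Finset (Fin (j1 + j2 + 1) → V) := fun t =>
    (wk G (j1 + j2) t.2.1 t.2.2).filter fun Q => ∃ i, C G j1 k δ hjJ t Q i with hbad
  have hbadle : ∀ t, ((bad t).card : ℝ) ≤ ∑ i, (((wk G (j1 + j2) t.2.1 t.2.2).filter fun Q =>
      C G j1 k δ hjJ t Q i).card : ℝ) := by
    intro t
    have h1 : bad t ⊆ univ.biUnion fun i => (wk G (j1 + j2) t.2.1 t.2.2).filter fun Q =>
        C G j1 k δ hjJ t Q i := by
      intro Q hQ
      rw [hbad, mem_filter] at hQ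
      obtain ⟨hQ1, i, hi⟩ := hQ
      rw [mem_biUnion]
      exact ⟨i, mem_univ _, mem_filter.2 ⟨hQ1, hi⟩⟩
    have h2 := (card_le_card h1).trans card_biUnion_le
    exact_mod_cast h2
  have hcard : (Fintype.card (Cls (j1 + j2)) : ℝ) ≤ 16 * (k : ℝ) ^ 2 := by
    have h1 : Fintype.card (Cls (j1 + j2)) = (j1 + j2 + 1) * (j1 + j2 + 1) +
        ((j1 + j2 + 1) + ((j1 + j2 + 1) + 1)) := by
      simp [Cls]
    have h2 : Fintype.card (Cls (j1 + j2)) ≤ 16 * k ^ 2 := by
      rw [h1]
      have h3 : j1 + j2 + 1 ≤ 2 * k := by omega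
      have h4 : 1 ≤ k := by omega
      nlinarith [Nat.mul_le_mul h3 h3]
    exact_mod_cast h2
  have hsum : ∑ t, wt G α β t * ((bad t).card : ℝ) ≤ (∑ v, W G (2 * k) v v) / 4 := by
    calc ∑ t, wt G α β t * ((bad t).card : ℝ)
        ≤ ∑ t, wt G α β t * ∑ i, (((wk G (j1 + j2) t.2.1 t.2.2).filter fun Q =>
          C G j1 k δ hjJ t Q i).card : ℝ) :=
          sum_le_sum fun t _ => mul_le_mul_of_nonneg_left (hbadle t) (wt_nonneg _ _ t)
      _ = ∑ i, ∑ t, wt G α β t * (((wk G (j1 + j2) t.2.1 t.2.2).filter fun Q =>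
          C G j1 k δ hjJ t Q i).card : ℝ) := by
          simp only [mul_sum]
          exact sum_comm
      _ ≤ ∑ _i : Cls (j1 + j2), N' := by
          refine sum_le_sum fun i _ => ?_
          exact class_le h1k h2k hJ hcl hns hN0 i
      _ = (Fintype.card (Cls (j1 + j2)) : ℝ) * N' := by
          rw [sum_const, card_univ, nsmul_eq_mul]
      _ ≤ 16 * (k : ℝ) ^ 2 * N' := mul_le_mul_of_nonneg_right hcard hN0
      _ ≤ _ := hN'
  -- pigeonhole
  have hex : ∃ t : V × V × V, 0 < wt G α β t * W G (j1 + j2) t.2.1 t.2.2 ∧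
      ((bad t).card : ℝ) ≤ W G (j1 + j2) t.2.1 t.2.2 / 4 := by
    by_contra hcon
    push Not at hcon
    have h1 : ∀ t : V × V × V, wt G α β t * (W G (j1 + j2) t.2.1 t.2.2 / 4) ≤
        wt G α β t * ((bad t).card : ℝ) := by
      intro t
      have h0 : 0 ≤ wt G α β t * W G (j1 + j2) t.2.1 t.2.2 :=
        mul_nonneg (wt_nonneg _ _ t) (W_nonneg _ _ _)
      rcases h0.lt_or_eq with h | h
      · exact mul_le_mul_of_nonneg_left (hcon t h).le (wt_nonneg _ _ t)
      · have h2 : wt G α β t * (W G (j1 + j2) t.2.1 t.2.2 / 4) = 0 := by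
          rw [mul_div_assoc', ← h, zero_div]
        rw [h2]
        exact mul_nonneg (wt_nonneg _ _ t) (Nat.cast_nonneg _)
    have h2 : ∃ t : V × V × V, 0 < wt G α β t * W G (j1 + j2) t.2.1 t.2.2 := by
      by_contra hc
      push Not at hc
      have : ∑ t, wt G α β t * W G (j1 + j2) t.2.1 t.2.2 ≤ 0 := sum_nonpos fun t _ => hc t
      rw [htot] at this
      linarith
    obtain ⟨t0, ht0⟩ := h2
    have h3 : ∑ t, wt G α β t * (W G (j1 + j2) t.2.1 t.2.2 / 4) <
        ∑ t, wt G α β t * ((bad t).card : ℝ) := by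
      refine sum_lt_sum (fun t _ => h1 t) ⟨t0, mem_univ _, ?_⟩
      have h4 : 0 < wt G α β t0 := by
        rcases (wt_nonneg (G := G) α β t0).lt_or_eq with h | h
        · exact h
        · rw [← h, zero_mul] at ht0
          exact absurd ht0 (lt_irrefl _)
      exact mul_lt_mul_of_pos_left (hcon t0 ht0) h4
    have h5 : ∑ t, wt G α β t * (W G (j1 + j2) t.2.1 t.2.2 / 4) =
        (∑ v, W G (2 * k) v v) / 4 := by
      rw [← htot, sum_div]
      exact sum_congr rfl fun t _ => by rw [mul_div_assoc']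
    linarith
  obtain ⟨⟨w, X1, X2⟩, hpos, hb⟩ := hex
  simp only at hpos hb
  have hWpos : 0 < W G (j1 + j2) X1 X2 := by
    rcases (W_nonneg (G := G) (j1 + j2) X1 X2).lt_or_eq with h | h
    · exact h
    · rw [← h, mul_zero] at hpos
      exact absurd hpos (lt_irrefl _)
  refine ⟨w, X1, X2, (wk G (j1 + j2) X1 X2).filter fun Q =>
    ¬ ∃ i, C G j1 k δ hjJ (w, X1, X2) Q i, hWpos, filter_subset _ _, ?_, ?_⟩
  · have h1 := card_filter_add_card_filter_not (s := wk G (j1 + j2) X1 X2)
      (fun Q => ∃ i, C G j1 k δ hjJ (w, X1, X2) Q i)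
    have h2 : ((bad (w, X1, X2)).card : ℝ) + (((wk G (j1 + j2) X1 X2).filter fun Q =>
        ¬ ∃ i, C G j1 k δ hjJ (w, X1, X2) Q i).card : ℝ) = W G (j1 + j2) X1 X2 := by
      rw [← card_wk, ← h1, Nat.cast_add]
    linarith
  · intro Q hQ
    rw [mem_filter] at hQ
    obtain ⟨hQw, hQ⟩ := hQ
    push Not at hQ
    refine ⟨?_, ?_, ?_, ?_⟩
    · intro a b hab
      by_contra hne
      rcases lt_or_gt_of_ne hne with h | h
      · exact hQ (Sum.inl (a, b)) ⟨h, hab⟩
      · exact hQ (Sum.inl (b, a)) ⟨h, hab.symm⟩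
    · intro i hi
      exact hQ (Sum.inr (Sum.inl i)) hi
    · intro a h
      by_contra hc
      exact hQ (Sum.inr (Sum.inr (Sum.inl ⟨a, by omega⟩))) ⟨h, hc⟩
    · by_contra hc
      exact hQ (Sum.inr (Sum.inr (Sum.inr ()))) hc

end Pool.Agent.Helper55.JS
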